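import Mathlib
import Pool.Agent.TH278.DX.Defs3
set_option autoImplicit false

namespace Pool.Agent.TH802.J5186

open Finset

lemma mink {ι V : Type} [NormedAddCommGroup V] (s : Finset ι) (x y : ι → V) :
    Real.sqrt (∑ i ∈ s, ‖x i + y i‖ ^ 2) ≤
      Real.sqrt (∑ i ∈ s, ‖x i‖ ^ 2) + Real.sqrt (∑ i ∈ s, ‖y i‖ ^ 2) := by
  have h := norm_add_le (WithLp.toLp 2 (fun i : s => x i) : PiLp 2 (fun _ : s => V))
    (WithLp.toLp 2 (fun i : s => y i))
  rw [PiLp.norm_eq_of_L2, PiLp.norm_eq_of_L2, PiLp.norm_eq_of_L2] at h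
  simp only [PiLp.add_apply] at h
  rw [Finset.sum_coe_sort s (fun i => ‖x i + y i‖ ^ 2),
    Finset.sum_coe_sort s (fun i => ‖x i‖ ^ 2), Finset.sum_coe_sort s (fun i => ‖y i‖ ^ 2)] at h
  exact h

lemma fin_le {G H : Type} [NormedAddCommGroup H] (f : lp (fun _ : G => H) 2) (s : Finset G) :
    ∑ i ∈ s, ‖f i‖ ^ 2 ≤ ‖f‖ ^ 2 := by
  have h := lp.sum_rpow_le_norm_rpow (p := 2) (by norm_num) f s
  simpa using h

theorem far {G Q : Type} [Group G] [Fintype Q] [DecidableEq Q] [Nonempty Q] (E : Finset G)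
    (F : G → ℝ) (hF : ∀ g, 0 ≤ F g) (Y : G → (EuclideanSpace ℂ Q →L[ℂ] EuclideanSpace ℂ Q))
    (hY : ∀ g, ‖Y g‖ ≤ 1) (ε δ : ℝ) (hε : ε ≤ 1) (hδ0 : 0 ≤ δ) (hδ : δ ≤ 1)
    (hYtr : ∀ g ∈ E, (1 - ε) * Fintype.card Q ≤ ∑ b : Q, ‖Y g (EuclideanSpace.single b 1)‖ ^ 2)
    (w : G → G → ℝ) (hw : ∀ s v, w s v = 0 ∨ w s v = 1)
    (hrow : ∑ g ∈ E, F g * w 1 g ≤ δ) (hcol : 1 - δ ≤ ∑ g ∈ E, F g * w g⁻¹ 1)
    (T : lp (fun _ : G => EuclideanSpace ℂ Q) 2 →L[ℂ] lp (fun _ : G => EuclideanSpace ℂ Q) 2)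
    (hT : ∀ (φ : lp (fun _ : G => EuclideanSpace ℂ Q) 2) (s : G),
        T φ s = ∑ g ∈ E, ((Real.sqrt (F g) * w s (s * g) : ℝ) : ℂ) • Y g (φ (s * g)))
    (σ : G → (lp (fun _ : G => EuclideanSpace ℂ Q) 2 →L[ℂ] lp (fun _ : G => EuclideanSpace ℂ Q) 2))
    (hσ : ∀ (t : G) (φ : lp (fun _ : G => EuclideanSpace ℂ Q) 2) (s : G),
      σ t φ s = φ (t⁻¹ * s))
    (B : lp (fun _ : G => EuclideanSpace ℂ Q) 2 →L[ℂ] lp (fun _ : G => EuclideanSpace ℂ Q) 2)
    (hB : ∀ t, B * σ t = σ t * B) :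
    Real.sqrt ((1 - δ) * (1 - ε)) - Real.sqrt δ ≤ 2 * ‖T - B‖ := by
  classical
  set N := ‖T - B‖ with hN
  have hN0 : 0 ≤ N := norm_nonneg _
  -- unit vectors
  set e : G → Q → lp (fun _ : G => EuclideanSpace ℂ Q) 2 := fun v b =>
    lp.single 2 v (EuclideanSpace.single b (1 : ℂ)) with he
  have hnorm : ∀ v b, ‖e v b‖ = 1 := by
    intro v b
    rw [he]
    simp only
    rw [lp.norm_single (by norm_num)]
    simp
  -- entries of `T`
  have hTe : ∀ s v b, s⁻¹ * v ∈ E → T (e v b) s =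
      ((Real.sqrt (F (s⁻¹ * v)) * w s v : ℝ) : ℂ) • Y (s⁻¹ * v) (EuclideanSpace.single b 1) := by
    intro s v b hsv
    rw [hT, Finset.sum_eq_single (s⁻¹ * v)]
    · rw [mul_inv_cancel_left, he]
      simp only
      rw [lp.single_apply_self]
    · intro g _ hg
      have : s * g ≠ v := by
        rintro rfl
        exact hg (by group)
      rw [he]
      simp only
      rw [lp.single_apply_ne _ _ _ this, map_zero, smul_zero]
    · intro h
      exact absurd hsv h
  -- entries of `B`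
  set β : G → Q → EuclideanSpace ℂ Q := fun g b => B (e 1 b) g⁻¹ with hβ
  have hBe : ∀ v b, B (e v b) 1 = β v b := by
    intro v b
    have h1 : σ v (e 1 b) = e v b := by
      ext s : 2
      rw [hσ, he]
      simp only
      by_cases hs : s = v
      · subst hs
        rw [inv_mul_cancel, lp.single_apply_self, lp.single_apply_self]
      · rw [lp.single_apply_ne _ _ _ hs, lp.single_apply_ne]
        intro h
        exact hs (inv_mul_eq_one.1 h).symm
    have h2 := DFunLike.congr_fun (hB v) (e 1 b)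
    simp only [ContinuousLinearMap.mul_apply] at h2
    rw [← h1, h2, hσ, mul_one]
  -- column
  set xc : G × Q → EuclideanSpace ℂ Q := fun p =>
    ((Real.sqrt (F p.1) * w p.1⁻¹ 1 : ℝ) : ℂ) • Y p.1 (EuclideanSpace.single p.2 1) with hxc
  set xr : G × Q → EuclideanSpace ℂ Q := fun p =>
    ((Real.sqrt (F p.1) * w 1 p.1 : ℝ) : ℂ) • Y p.1 (EuclideanSpace.single p.2 1) with hxr
  set S := E ×ˢ (Finset.univ : Finset Q) with hS
  have hcolb : ∑ p ∈ S, ‖xc p - β p.1 p.2‖ ^ 2 ≤ Fintype.card Q * N ^ 2 := by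
    rw [hS, Finset.sum_product_right]
    calc ∑ b : Q, ∑ g ∈ E, ‖xc (g, b) - β g b‖ ^ 2 ≤ ∑ _b : Q, N ^ 2 := by
          apply Finset.sum_le_sum
          intro b _
          have h1 : ∀ g ∈ E, xc (g, b) - β g b = (T - B) (e 1 b) g⁻¹ := by
            intro g hg
            have h2 := hTe g⁻¹ 1 b (by simpa using hg)
            rw [ContinuousLinearMap.sub_apply, lp.coeFn_sub, Pi.sub_apply, h2]
            simp only [inv_inv, mul_one, hxc, hβ]
          calc ∑ g ∈ E, ‖xc (g, b) - β g b‖ ^ 2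
              = ∑ g ∈ E, ‖(T - B) (e 1 b) g⁻¹‖ ^ 2 :=
                Finset.sum_congr rfl fun g hg => by rw [h1 g hg]
            _ = ∑ g ∈ E.image (fun g => g⁻¹), ‖(T - B) (e 1 b) g‖ ^ 2 := by
                rw [Finset.sum_image]
                intro x _ y _ hxy
                exact inv_injective hxy
            _ ≤ ‖(T - B) (e 1 b)‖ ^ 2 := fin_le _ _
            _ ≤ N ^ 2 := by
                have := (T - B).le_opNorm (e 1 b)
                rw [hnorm, mul_one] at this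
                exact pow_le_pow_left₀ (norm_nonneg _) this 2
      _ = Fintype.card Q * N ^ 2 := by simp
  -- row
  have hrowb : ∑ p ∈ S, ‖xr p - β p.1 p.2‖ ^ 2 ≤ Fintype.card Q * N ^ 2 := by
    have hψ : ∀ c : Q, ∑ v ∈ E, ∑ b : Q, ‖((T - B) (e v b) 1) c‖ ^ 2 ≤ N ^ 2 := by
      intro c
      set ψ := ContinuousLinearMap.adjoint (T - B) (e 1 c) with hψd
      have h1 : ∀ v b, ‖((T - B) (e v b) 1) c‖ = ‖(ψ v) b‖ := by
        intro v b
        have h2 : inner ℂ (e v b) ψ = inner ℂ ((T - B) (e v b)) (e 1 c) := by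
          rw [hψd, ContinuousLinearMap.adjoint_inner_right]
        rw [he] at h2
        simp only at h2
        rw [lp.inner_single_left, lp.inner_single_right, EuclideanSpace.inner_single_left,
          EuclideanSpace.inner_single_right] at h2
        simp only [map_one, one_mul] at h2
        rw [he]
        simp only
        rw [h2, RCLike.norm_conj]
      calc ∑ v ∈ E, ∑ b : Q, ‖((T - B) (e v b) 1) c‖ ^ 2
          = ∑ v ∈ E, ‖ψ v‖ ^ 2 := by
            refine Finset.sum_congr rfl fun v _ => ?_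
            rw [EuclideanSpace.norm_sq_eq]
            exact Finset.sum_congr rfl fun b _ => by rw [h1]
        _ ≤ ‖ψ‖ ^ 2 := fin_le _ _
        _ ≤ N ^ 2 := by
            have := (ContinuousLinearMap.adjoint (T - B)).le_opNorm (e 1 c)
            rw [hnorm, mul_one, LinearIsometryEquiv.norm_map] at this
            exact pow_le_pow_left₀ (norm_nonneg _) this 2
    have h3 : ∀ p ∈ S, ‖xr p - β p.1 p.2‖ ^ 2 = ∑ c : Q, ‖((T - B) (e p.1 p.2) 1) c‖ ^ 2 := by
      intro p hp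
      have hp1 : p.1 ∈ E := (Finset.mem_product.1 hp).1
      have h4 := hTe 1 p.1 p.2 (by simpa using hp1)
      have h5 : xr p - β p.1 p.2 = (T - B) (e p.1 p.2) 1 := by
        rw [ContinuousLinearMap.sub_apply, lp.coeFn_sub, Pi.sub_apply, h4, hBe]
        simp only [inv_one, one_mul, hxr]
      rw [h5, EuclideanSpace.norm_sq_eq]
    rw [Finset.sum_congr rfl h3, Finset.sum_comm]
    calc ∑ c : Q, ∑ p ∈ S, ‖((T - B) (e p.1 p.2) 1) c‖ ^ 2 ≤ ∑ _c : Q, N ^ 2 := by
          apply Finset.sum_le_sum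
          intro c _
          rw [hS, Finset.sum_product]
          exact hψ c
      _ = Fintype.card Q * N ^ 2 := by simp
  -- sizes
  have hq : (0 : ℝ) < Fintype.card Q := by exact_mod_cast Fintype.card_pos
  have hww : ∀ s v, w s v ^ 2 = w s v := by
    intro s v
    rcases hw s v with h | h <;> rw [h] <;> norm_num
  have hw0 : ∀ s v, 0 ≤ w s v := by
    intro s v
    rcases hw s v with h | h <;> rw [h]
    norm_num
  have hnc : ∀ (u : ℝ) (g : G) (b : Q), ‖((Real.sqrt (F g) * u : ℝ) : ℂ) •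
      Y g (EuclideanSpace.single b 1)‖ ^ 2 = F g * u ^ 2 * ‖Y g (EuclideanSpace.single b 1)‖ ^ 2 := by
    intro u g b
    rw [norm_smul, mul_pow, Complex.norm_real, Real.norm_eq_abs, sq_abs, mul_pow,
      Real.sq_sqrt (hF g)]
  have hxcn : (1 - δ) * (1 - ε) * Fintype.card Q ≤ ∑ p ∈ S, ‖xc p‖ ^ 2 := by
    rw [hS, Finset.sum_product]
    calc (1 - δ) * (1 - ε) * Fintype.card Q
        ≤ (∑ g ∈ E, F g * w g⁻¹ 1) * ((1 - ε) * Fintype.card Q) := by
          rw [mul_assoc]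
          exact mul_le_mul_of_nonneg_right hcol (mul_nonneg (by linarith) hq.le)
      _ = ∑ g ∈ E, F g * w g⁻¹ 1 * ((1 - ε) * Fintype.card Q) := by rw [Finset.sum_mul]
      _ ≤ ∑ g ∈ E, ∑ b : Q, ‖xc (g, b)‖ ^ 2 := by
          apply Finset.sum_le_sum
          intro g hg
          calc F g * w g⁻¹ 1 * ((1 - ε) * Fintype.card Q)
              ≤ F g * w g⁻¹ 1 * ∑ b : Q, ‖Y g (EuclideanSpace.single b 1)‖ ^ 2 :=
                mul_le_mul_of_nonneg_left (hYtr g hg) (mul_nonneg (hF g) (hw0 _ _))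
            _ = ∑ b : Q, ‖xc (g, b)‖ ^ 2 := by
                rw [Finset.mul_sum]
                refine Finset.sum_congr rfl fun b _ => ?_
                simp only [hxc]
                rw [hnc, hww]
  have hxrn : ∑ p ∈ S, ‖xr p‖ ^ 2 ≤ δ * Fintype.card Q := by
    rw [hS, Finset.sum_product]
    calc ∑ g ∈ E, ∑ b : Q, ‖xr (g, b)‖ ^ 2 ≤ ∑ g ∈ E, F g * w 1 g * Fintype.card Q := by
          apply Finset.sum_le_sum
          intro g hg
          calc ∑ b : Q, ‖xr (g, b)‖ ^ 2 ≤ ∑ _b : Q, F g * w 1 g := by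
                apply Finset.sum_le_sum
                intro b _
                simp only [hxr]
                rw [hnc, hww]
                have h1 : ‖Y g (EuclideanSpace.single b 1)‖ ≤ 1 := by
                  have := (Y g).le_of_opNorm_le (hY g) (EuclideanSpace.single b (1 : ℂ))
                  simpa using this
                have h2 : ‖Y g (EuclideanSpace.single b 1)‖ ^ 2 ≤ 1 :=
                  pow_le_one₀ (norm_nonneg _) h1
                exact mul_le_of_le_one_right (mul_nonneg (hF g) (hw0 _ _)) h2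
            _ = F g * w 1 g * Fintype.card Q := by
                rw [Finset.sum_const, Finset.card_univ, nsmul_eq_mul, mul_comm]
      _ = (∑ g ∈ E, F g * w 1 g) * Fintype.card Q := by rw [Finset.sum_mul]
      _ ≤ δ * Fintype.card Q := mul_le_mul_of_nonneg_right hrow hq.le
  -- triangle inequality
  have h1 := mink S (fun p => xc p - β p.1 p.2) (fun p => (β p.1 p.2 - xr p) + xr p)
  have h2 := mink S (fun p => β p.1 p.2 - xr p) xr
  have h3 : ∀ p ∈ S, ‖(xc p - β p.1 p.2) + ((β p.1 p.2 - xr p) + xr p)‖ ^ 2 = ‖xc p‖ ^ 2 := by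
    intro p _
    congr 2
    abel
  have h4 : ∀ p ∈ S, ‖β p.1 p.2 - xr p‖ ^ 2 = ‖xr p - β p.1 p.2‖ ^ 2 := by
    intro p _
    rw [norm_sub_rev]
  rw [Finset.sum_congr rfl h3] at h1
  rw [Finset.sum_congr rfl h4] at h2
  have hsq : ∀ x : ℝ, x ≤ Fintype.card Q * N ^ 2 → Real.sqrt x ≤ Real.sqrt (Fintype.card Q) * N := by
    intro x hx
    calc Real.sqrt x ≤ Real.sqrt (Fintype.card Q * N ^ 2) := Real.sqrt_le_sqrt hx
      _ = Real.sqrt (Fintype.card Q) * N := by
          rw [Real.sqrt_mul hq.le, Real.sqrt_sq hN0]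
  have h5 := hsq _ hcolb
  have h6 := hsq _ hrowb
  have h7 : Real.sqrt ((1 - δ) * (1 - ε)) * Real.sqrt (Fintype.card Q) ≤
      Real.sqrt (∑ p ∈ S, ‖xc p‖ ^ 2) := by
    rw [← Real.sqrt_mul (mul_nonneg (by linarith) (by linarith))]
    exact Real.sqrt_le_sqrt hxcn
  have h8 : Real.sqrt (∑ p ∈ S, ‖xr p‖ ^ 2) ≤ Real.sqrt δ * Real.sqrt (Fintype.card Q) := by
    rw [← Real.sqrt_mul hδ0]
    exact Real.sqrt_le_sqrt hxrn
  have hsq0 : 0 < Real.sqrt (Fintype.card Q) := Real.sqrt_pos.2 hq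
  have h9 : (Real.sqrt ((1 - δ) * (1 - ε)) - Real.sqrt δ) * Real.sqrt (Fintype.card Q) ≤
      (2 * N) * Real.sqrt (Fintype.card Q) := by
    nlinarith
  exact le_of_mul_le_mul_right h9 hsq0

end Pool.Agent.TH802.J5186
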